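import Pool.Agent.helper12.TZ.Spec

set_option autoImplicit false

namespace Pool.Agent.TZ

open Pool.Agent.helper58.DC Pool.Agent.DI Pool.Agent.GR Pool.Agent.OB

theorem MON (hCEN : CEN_stmt) : MON_stmt := by
  intro G _ s y H H' hHH hCm hFr
  have h1 : ∀ i : ℕ, Ul s y H i ≤ Ul s y H' i := by
    intro i
    induction i with
    | zero => exact le_refl _
    | succ i ih =>
      intro u hu
      have h2 : u ∈ nx s y H (Ul s y H i) := hu
      exact hCEN G s y H' hCm hFr i u (hHH h2.1) (sup_le_sup_right ih _ h2.2.2.2)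
  exact iSup_mono h1

end Pool.Agent.TZ
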